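import Pool.Agent.Y697.EG.Com

set_option autoImplicit false

namespace Pool.Agent.Results.MP_9a9528_al.CommutingEngelElements

open Pool.Agent.Helper501.EPO (iterComm iterComm_eq IsEngelElement isEngel_iff Orderable
  RightOrderable)
open Pool.Agent.Y697.EG (ResTFN PairNil)

/-- There is a group `G` generated by three Engel elements `u, v, h` which is residually
(torsion-free nilpotent), in particular orderable and right orderable, such that `u` and `v`
commute but `u * v` is not an Engel element: the iterated commutators `[h, u v, …, u v]` are all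
nontrivial.  Moreover any two conjugates of `u` (of `v`, of `h`) generate a nilpotent subgroup.
In particular the Engel elements of `G` generate `G` and do not form a subgroup. -/
theorem result : ∃ (G : Type) (_ : Group G) (u v h : G),
    Subgroup.closure {u, v, h} = ⊤ ∧ u * v = v * u ∧
    ResTFN G ∧ Orderable G ∧ RightOrderable G ∧
    (∀ a ∈ ({u, v, h} : Set G), IsEngelElement a ∧ PairNil a) ∧
    (∀ n : ℕ, iterComm h (u * v) n ≠ 1) ∧ ¬ IsEngelElement (u * v) ∧
    ¬ ∃ H : Subgroup G, ∀ g : G, g ∈ H ↔ IsEngelElement g := by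
  obtain ⟨G, iG, u, v, h, hgen, hc, hr, ⟨L, hL⟩, he, hn⟩ := Pool.Agent.Y697.EG.main
  have hne : ∀ n : ℕ, iterComm h (u * v) n ≠ 1 := by
    intro n hcon
    rw [iterComm_eq] at hcon
    exact hn n hcon
  have hnE : ¬ IsEngelElement (u * v) := by
    intro hE
    obtain ⟨n, _, h2⟩ := hE h
    exact hne n h2
  have hu : IsEngelElement u := (isEngel_iff u).2 (he u (by simp)).1
  have hv : IsEngelElement v := (isEngel_iff v).2 (he v (by simp)).1
  refine ⟨G, iG, u, v, h, hgen, hc, hr, ⟨L, hL⟩, ⟨L, fun a b c hab => (hL a b c hab).2⟩,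
    fun a ha => ⟨(isEngel_iff a).2 (he a ha).1, (he a ha).2⟩, hne, hnE, ?_⟩
  rintro ⟨H, hH⟩
  exact hnE ((hH (u * v)).1 (H.mul_mem ((hH u).2 hu) ((hH v).2 hv)))

end Pool.Agent.Results.MP_9a9528_al.CommutingEngelElements
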